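import Pool.Agent.Helper48.KY.One

set_option autoImplicit false

/-!
# Distances of the clusters with `τ = 0` (facts for token `e`, `N = 1`)
-/

namespace Helper48.KY

open Helper25.KW

variable {p a b c J ds l q : ℤ} {D dl : ℝ} {Cl : ℤ → ℤ → ℤ → ℤ → ℝ → Prop}

/-- `0 < 2 I - Ie` -/
theorem dA (W : Base p a b c J ds l q D dl Cl) {Xe Re N X R : ℤ} {Ie I : ℝ}
    (he : Cl 1 0 Xe Re Ie) (h : Cl N 0 X R I) (hN : 0 < N) : 0 < 2 * I - Ie := by
  have h1 := pI W he (by norm_num)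
  have h2 := pI W h hN.le
  have hp : (0 : ℝ) < p := by
    have : 0 < p := by have := W.ha; have := W.h2a; omega
    exact_mod_cast this
  have hN' : (1 : ℝ) ≤ N := by exact_mod_cast hN
  have hD : 0 < D := by
    have := W.hJ; have h3 := W.hJD
    have : (1 : ℝ) ≤ J := by exact_mod_cast this
    linarith
  have h3 : (p : ℝ) * (2 * I - Ie) = (2 * N - 1) * D := by push_cast at h1; linarith
  have h4 : 0 < (p : ℝ) * (2 * I - Ie) := by
    rw [h3]; exact mul_pos (by linarith) hD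
  exact pos_of_mul_pos_of_pos_left' h4 hp
where
  pos_of_mul_pos_of_pos_left' {x y : ℝ} (h : 0 < x * y) (hx : 0 < x) : 0 < y := by
    by_contra h1
    push Not at h1
    nlinarith

/-- `0 < 2 D - 2 I - Ie` -/
theorem dB (W : Base p a b c J ds l q D dl Cl) {Xe Re N X R : ℤ} {Ie I : ℝ}
    (he : Cl 1 0 Xe Re Ie) (h : Cl N 0 X R I) (hN : N < p) : 0 < 2 * D - 2 * I - Ie := by
  have h1 := dif W W.cp h
  have h2 := dA W he h1 (by omega)
  linarith

/-- `2 |p J - l D| ≤ D` -/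
theorem pJ (W : Base p a b c J ds l q D dl Cl) (hA : Aux p a b ds D Cl) :
    -D ≤ 2 * ((p : ℝ) * J - l * D) ∧ 2 * ((p : ℝ) * J - l * D) ≤ D := by
  obtain ⟨I, h, -⟩ := elE W hA
  have h1 := dif W h.cl W.cl
  have h4 : Cl (0 : ℤ) (-2) ((p - b - ds * J - (-b - ds * J)) + (p - b - ds * J - (-b - ds * J)))
      (b + c - (c + b) + (b + c - (c + b))) (I - J + (I - J)) := by
    have := W.add h1 h1
    simpa using this
  have h5 := small W hA h4 (by norm_num)
  have h6 := pI W h.cl (by have := W.hl; omega)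
  have hp : (0 : ℝ) < p := by
    have : 0 < p := by have := W.ha; have := W.h2a; omega
    exact_mod_cast this
  rw [← abs_of_pos hp, ← abs_mul] at h5
  have h7 := abs_le.1 h5
  constructor <;> nlinarith [h7.1, h7.2]

/-- `0 < 3 D - 3 J - Ie` -/
theorem dJ (W : Base p a b c J ds l q D dl Cl) (hA : Aux p a b ds D Cl) {Xe Re : ℤ} {Ie : ℝ}
    (he : Cl 1 0 Xe Re Ie) : 0 < 3 * D - 3 * J - Ie := by
  have h1 := pI W he (by norm_num)
  have h2 := (pJ W hA).2
  have hp : (0 : ℝ) < p := by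
    have : 0 < p := by have := W.ha; have := W.h2a; omega
    exact_mod_cast this
  have hl : (l : ℝ) + 1 ≤ p := by exact_mod_cast W.hlp
  have hD : 0 < D := by
    have := W.hJ; have h3 := W.hJD
    have : (1 : ℝ) ≤ J := by exact_mod_cast this
    linarith
  by_contra h3
  push Not at h3
  push_cast at h1
  have h4 : (p : ℝ) * (3 * D - 3 * J - Ie) ≤ 0 := mul_nonpos_of_nonneg_of_nonpos hp.le h3
  nlinarith

/-- `0 < 3 J - 3 I - Ie` for `N < l` -/
theorem dm0 (W : Base p a b c J ds l q D dl Cl) (hA : Aux p a b ds D Cl) {Xe Re N X R : ℤ}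
    {Ie I : ℝ} (he : Cl 1 0 Xe Re Ie) (h : Cl N 0 X R I) (h0 : 0 ≤ N) (hN : N < l) :
    0 < 3 * J - 3 * I - Ie := by
  have h1 := pI W he (by norm_num)
  have h2 := (pJ W hA).1
  have h5 := pI W h h0
  have hp : (0 : ℝ) < p := by
    have : 0 < p := by have := W.ha; have := W.h2a; omega
    exact_mod_cast this
  have hl : (N : ℝ) + 1 ≤ l := by exact_mod_cast hN
  have hD : 0 < D := by
    have := W.hJ; have h3 := W.hJD
    have : (1 : ℝ) ≤ J := by exact_mod_cast this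
    linarith
  by_contra h3
  push Not at h3
  push_cast at h1
  have h4 : (p : ℝ) * (3 * J - 3 * I - Ie) ≤ 0 := mul_nonpos_of_nonneg_of_nonpos hp.le h3
  nlinarith

/-- `0 < 3 I - 3 J - Ie` for `l < N` -/
theorem dm1 (W : Base p a b c J ds l q D dl Cl) (hA : Aux p a b ds D Cl) {Xe Re N X R : ℤ}
    {Ie I : ℝ} (he : Cl 1 0 Xe Re Ie) (h : Cl N 0 X R I) (hN : l < N) :
    0 < 3 * I - 3 * J - Ie := by
  have h1 := pI W he (by norm_num)
  have h2 := (pJ W hA).2
  have h5 := pI W h (by have := W.hl; omega)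
  have hp : (0 : ℝ) < p := by
    have : 0 < p := by have := W.ha; have := W.h2a; omega
    exact_mod_cast this
  have hl : (l : ℝ) + 1 ≤ N := by exact_mod_cast hN
  have hD : 0 < D := by
    have := W.hJ; have h3 := W.hJD
    have : (1 : ℝ) ≤ J := by exact_mod_cast this
    linarith
  by_contra h3
  push Not at h3
  push_cast at h1
  have h4 : (p : ℝ) * (3 * I - 3 * J - Ie) ≤ 0 := mul_nonpos_of_nonneg_of_nonpos hp.le h3
  nlinarith

/-- `0 < 3 D - 3 I - 3 J - Ie` for `N + l < p` -/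
theorem dn0 (W : Base p a b c J ds l q D dl Cl) (hA : Aux p a b ds D Cl) {Xe Re N X R : ℤ}
    {Ie I : ℝ} (he : Cl 1 0 Xe Re Ie) (h : Cl N 0 X R I) (h0 : 0 ≤ N) (hN : N + l < p) :
    0 < 3 * D - 3 * I - 3 * J - Ie := by
  have h1 := pI W he (by norm_num)
  have h2 := (pJ W hA).2
  have h5 := pI W h h0
  have hp : (0 : ℝ) < p := by
    have : 0 < p := by have := W.ha; have := W.h2a; omega
    exact_mod_cast this
  have hl : (N : ℝ) + l + 1 ≤ p := by exact_mod_cast hN
  have hD : 0 < D := by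
    have := W.hJ; have h3 := W.hJD
    have : (1 : ℝ) ≤ J := by exact_mod_cast this
    linarith
  by_contra h3
  push Not at h3
  push_cast at h1
  have h4 : (p : ℝ) * (3 * D - 3 * I - 3 * J - Ie) ≤ 0 :=
    mul_nonpos_of_nonneg_of_nonpos hp.le h3
  nlinarith

/-- `0 < 3 I + 3 J - 3 D - Ie` for `p < N + l` -/
theorem dn1 (W : Base p a b c J ds l q D dl Cl) (hA : Aux p a b ds D Cl) {Xe Re N X R : ℤ}
    {Ie I : ℝ} (he : Cl 1 0 Xe Re Ie) (h : Cl N 0 X R I) (h0 : 0 ≤ N) (hN : p < N + l) :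
    0 < 3 * I + 3 * J - 3 * D - Ie := by
  have h1 := pI W he (by norm_num)
  have h2 := (pJ W hA).1
  have h5 := pI W h h0
  have hp : (0 : ℝ) < p := by
    have : 0 < p := by have := W.ha; have := W.h2a; omega
    exact_mod_cast this
  have hl : (p : ℝ) + 1 ≤ N + l := by exact_mod_cast hN
  have hD : 0 < D := by
    have := W.hJ; have h3 := W.hJD
    have : (1 : ℝ) ≤ J := by exact_mod_cast this
    linarith
  by_contra h3
  push Not at h3
  push_cast at h1
  have h4 : (p : ℝ) * (3 * I + 3 * J - 3 * D - Ie) ≤ 0 :=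
    mul_nonpos_of_nonneg_of_nonpos hp.le h3
  nlinarith

/-- the same, from the order of the reals -/
theorem dm (W : Base p a b c J ds l q D dl Cl) (hA : Aux p a b ds D Cl) {Xe Re N X R : ℤ}
    {Ie I : ℝ} (he : Cl 1 0 Xe Re Ie) (hI : 0 < Ie) (h : Cl N 0 X R I) (h0 : 0 ≤ N)
    (hN : N ≠ l) : (I < J → 0 < 3 * J - 3 * I - Ie) ∧ (J < I → 0 < 3 * I - 3 * J - Ie) := by
  rcases lt_or_gt_of_ne hN with h1 | h1
  · have h2 := dm0 W hA he h h0 h1
    exact ⟨fun _ => h2, fun h3 => absurd h3 (by linarith)⟩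
  · have h2 := dm1 W hA he h h1
    exact ⟨fun h3 => absurd h3 (by linarith), fun _ => h2⟩

theorem dn (W : Base p a b c J ds l q D dl Cl) (hA : Aux p a b ds D Cl) {Xe Re N X R : ℤ}
    {Ie I : ℝ} (he : Cl 1 0 Xe Re Ie) (hI : 0 < Ie) (h : Cl N 0 X R I) (h0 : 0 ≤ N)
    (hN : N + l ≠ p) : (I + J < D → 0 < 3 * D - 3 * I - 3 * J - Ie) ∧
      (D < I + J → 0 < 3 * I + 3 * J - 3 * D - Ie) := by
  rcases lt_or_gt_of_ne hN with h1 | h1
  · have h2 := dn0 W hA he h h0 h1
    exact ⟨fun _ => h2, fun h3 => absurd h3 (by linarith)⟩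
  · have h2 := dn1 W hA he h h0 h1
    exact ⟨fun h3 => absurd h3 (by linarith), fun _ => h2⟩

end Helper48.KY
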