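import Pool.Agent.Helper25.KW.K9

set_option autoImplicit false

/-!
# The cluster `N = 1` (free row), the cluster `l` at `τ = 0`, coincidences
-/

namespace Helper48.KY

open Helper25.KW

variable {p a b c J ds l q : ℤ} {D dl : ℝ} {Cl : ℤ → ℤ → ℤ → ℤ → ℝ → Prop}

/-- difference of two clusters -/
theorem dif (W : Base p a b c J ds l q D dl Cl) {N τ X R N' τ' X' R' : ℤ} {I I' : ℝ}
    (h : Cl N τ X R I) (h' : Cl N' τ' X' R' I') :
    Cl (N - N') (τ - τ') (X - X') (R - R') (I - I') := by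
  have := W.add h (W.neg h')
  simpa [sub_eq_add_neg] using this

/-- multiples -/
theorem mul (W : Base p a b c J ds l q D dl Cl) {N X R : ℤ} {I : ℝ} (h : Cl N 0 X R I) (n : ℕ) :
    Cl (n * N) 0 (n * X) (n * R) (n * I) := by
  induction n with
  | zero =>
    have := dif W h h
    simpa using this
  | succ n ih =>
    have := W.add ih h
    have e1 : ((n + 1 : ℕ) : ℤ) * N = n * N + N := by push_cast; ring
    have e2 : ((n + 1 : ℕ) : ℤ) * X = n * X + X := by push_cast; ring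
    have e3 : ((n + 1 : ℕ) : ℤ) * R = n * R + R := by push_cast; ring
    have e4 : ((n + 1 : ℕ) : ℝ) * I = n * I + I := by push_cast; ring
    rw [e1, e2, e3, e4]
    simpa using this

/-- a `τ = 0` cluster with index `0` is at `0` -/
theorem zer (W : Base p a b c J ds l q D dl Cl) {X R : ℤ} {I : ℝ} (h : Cl 0 0 X R I) : I = 0 := by
  have h1 := W.pos0 h
  have h2 := W.pos0 (W.neg h)
  have h3 : ¬ 0 < I := fun h => absurd (h1.1 h) (lt_irrefl _)
  have h4 : ¬ 0 < -I := fun h => absurd (h2.1 h) (by simp)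
  linarith

/-- `p I_N = N D` -/
theorem pI (W : Base p a b c J ds l q D dl Cl) {N X R : ℤ} {I : ℝ} (h : Cl N 0 X R I)
    (hN : 0 ≤ N) : (p : ℝ) * I = N * D := by
  have hp : 0 ≤ p := by have := W.ha; have := W.h2a; omega
  obtain ⟨n, hn⟩ := Int.eq_ofNat_of_zero_le hp
  obtain ⟨m, hm⟩ := Int.eq_ofNat_of_zero_le hN
  have h1 := mul W h n
  have h2 := mul W W.cp m
  have h3 := dif W h1 h2
  have e1 : (n : ℤ) * N - m * p = 0 := by rw [hn, hm]; push_cast; ring
  rw [e1] at h3
  have h4 := zer W (by simpa using h3)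
  have e2 : (p : ℝ) = n := by rw [hn]; simp
  have e3 : (N : ℝ) = m := by rw [hm]; simp
  rw [e2, e3]
  linarith

/-- the index `1` has a row label -/
theorem row1 (W : Base p a b c J ds l q D dl Cl) (hA : Aux p a b ds D Cl) :
    ∃ Xe Re : ℤ, ∃ Ie : ℝ, EFac p ds D Cl Re 1 Xe Ie ∧ 0 < Re ∧ Re < p := by
  classical
  have hp : 5 ≤ p := by have := W.ha; have := W.h2a; omega
  have hnd : ∀ r ∈ Finset.Icc (1 : ℤ) (p - 1), ¬ p ∣ r := by
    intro r hr h
    rw [Finset.mem_Icc] at hr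
    have := Int.le_of_dvd (by omega) h
    omega
  have hex : ∀ r : ℤ, ∃ N : ℤ, r ∈ Finset.Icc (1 : ℤ) (p - 1) →
      ∃ X I, EFac p ds D Cl r N X I := by
    intro r
    by_cases hr : r ∈ Finset.Icc (1 : ℤ) (p - 1)
    · obtain ⟨N, X, I, h⟩ := hA.ecl r (hnd r hr)
      exact ⟨N, fun _ => ⟨X, I, h⟩⟩
    · exact ⟨0, fun h => absurd h hr⟩
  choose f hf using hex
  have hmaps : Set.MapsTo f (Finset.Icc (1 : ℤ) (p - 1)) (Finset.Icc (1 : ℤ) (p - 1)) := by
    intro r hr
    obtain ⟨X, I, h⟩ := hf r (by simpa using hr)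
    have h1 := h.N0
    have h2 := h.Np
    simp only [Finset.coe_Icc, Set.mem_Icc]
    omega
  have hinj : Set.InjOn f (Finset.Icc (1 : ℤ) (p - 1)) := by
    intro r hr r' hr' he
    obtain ⟨X, I, h⟩ := hf r (by simpa using hr)
    obtain ⟨X', I', h'⟩ := hf r' (by simpa using hr')
    rw [he] at h
    have h1 := dif W h.cl h'.cl
    have h2 := (W.dvd h1).1 (by simp)
    simp only [Finset.coe_Icc, Set.mem_Icc] at hr hr'
    obtain ⟨t, ht⟩ := h2
    rcases lt_trichotomy t 0 with h3 | h3 | h3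
    · nlinarith
    · subst h3; linarith
    · nlinarith
  have hs := Finset.surjOn_of_injOn_of_card_le f hmaps hinj le_rfl
  have h1 : (1 : ℤ) ∈ ((Finset.Icc (1 : ℤ) (p - 1) : Finset ℤ) : Set ℤ) := by
    simp only [Finset.coe_Icc, Set.mem_Icc]; omega
  obtain ⟨r, hr, hr1⟩ := hs h1
  obtain ⟨X, I, h⟩ := hf r (by simpa using hr)
  rw [hr1] at h
  simp only [Finset.coe_Icc, Set.mem_Icc] at hr
  exact ⟨X, r, I, h, by omega, by omega⟩

/-- the cluster `N = 1` with free row -/
theorem oneE' (W : Base p a b c J ds l q D dl Cl) (hA : Aux p a b ds D Cl) :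
    ∃ Xe Re : ℤ, ∃ Ie : ℝ, EFac p ds D Cl Re 1 Xe Ie ∧ 0 < Re ∧ Re < p ∧ 2 * Ie < 1 ∧
      (p : ℝ) * Ie = D := by
  obtain ⟨X, R, I, h, h1, h2⟩ := row1 W hA
  have h3 := pI W h.cl (by norm_num)
  have hp : (0 : ℝ) < p := by
    have : 0 < p := by have := W.ha; have := W.h2a; omega
    exact_mod_cast this
  have hD := W.hD
  refine ⟨X, R, I, h, h1, h2, ?_, by simpa using h3⟩
  push_cast at h3
  by_contra h4
  push Not at h4
  nlinarith

theorem oneE (W : World p a b c J ds l q D dl Cl) (hA : Aux p a b ds D Cl) :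
    ∃ Xe Re : ℤ, ∃ Ie : ℝ, EFac p ds D Cl Re 1 Xe Ie ∧ 0 < Re ∧ Re < p ∧ 2 * Ie < 1 := by
  obtain ⟨X, R, I, h, h1, h2, h3, -⟩ := oneE' W.toBase hA
  exact ⟨X, R, I, h, h1, h2, h3⟩

/-- coincidences: a cluster with index `0` and `|τ| ≤ 2` is at distance `≤ D / p` from `0` -/
theorem small (W : Base p a b c J ds l q D dl Cl) (hA : Aux p a b ds D Cl) {τ X R : ℤ} {I : ℝ}
    (h : Cl 0 τ X R I) (hτ : |τ| ≤ 2) : (p : ℝ) * |I| ≤ D := by
  obtain ⟨Xe, Re, Ie, he, -, -, -, hp⟩ := oneE' W hA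
  have hp0 : (0 : ℝ) < p := by
    have : 0 < p := by have := W.ha; have := W.h2a; omega
    exact_mod_cast this
  have key : ∀ {τ X R : ℤ} {I : ℝ}, Cl 0 τ X R I → |τ| ≤ 2 → I ≤ Ie := by
    intro τ X R I h hτ
    by_contra hI
    push Not at hI
    have h1 := dif W h he.cl
    have h2 := W.pos h1 (by simpa using hτ) (by linarith)
    norm_num at h2
  have h1 := key h hτ
  have hn : Cl 0 (-τ) (-X) (-R) (-I) := by simpa using W.neg h
  have h2 := key hn (by simpa using hτ)
  have h3 : |I| ≤ Ie := abs_le.2 ⟨by linarith, h1⟩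
  calc (p : ℝ) * |I| ≤ p * Ie := mul_le_mul_of_nonneg_left h3 hp0.le
    _ = D := hp

/-- the same for an index divisible by `p` -/
theorem small' (W : Base p a b c J ds l q D dl Cl) (hA : Aux p a b ds D Cl) {g τ X R : ℤ} {I : ℝ}
    (h : Cl (g * p) τ X R I) (hg : 0 ≤ g) (hτ : |τ| ≤ 2) : (p : ℝ) * |I - g * D| ≤ D := by
  obtain ⟨m, hm⟩ := Int.eq_ofNat_of_zero_le hg
  have h1 := dif W h (mul W W.cp m)
  have e1 : g * p - m * p = 0 := by rw [hm]; simp
  rw [e1] at h1
  have e2 : (g : ℝ) = m := by rw [hm]; simp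
  rw [e2]
  exact small W hA (by simpa using h1) hτ

/-- the cluster `l` at `τ = 0` -/
theorem elE (W : Base p a b c J ds l q D dl Cl) (hA : Aux p a b ds D Cl) :
    ∃ Ie : ℝ, EFac p ds D Cl (b + c) l (p - b - ds * J) Ie ∧ 4 * |Ie - J| < 1 := by
  have hp : 5 ≤ p := by have := W.ha; have := W.h2a; omega
  have hl := W.hl
  have hlp := W.hlp
  have h0 : ¬ p ∣ b + c := by
    intro h
    have h1 := (W.dvd W.cl).2 (by rwa [add_comm] at h)
    have := Int.le_of_dvd (by omega) h1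
    omega
  obtain ⟨N, X, I, h⟩ := hA.ecl (b + c) h0
  have h1 := dif W h.cl W.cl
  have h2 : p ∣ N - l := (W.dvd h1).2 (by simp [add_comm])
  have hN : N = l := by
    obtain ⟨t, ht⟩ := h2
    have := h.N0
    have := h.Np
    rcases lt_trichotomy t 0 with h3 | h3 | h3
    · nlinarith
    · subst h3; linarith
    · nlinarith
  subst hN
  have h3 : p ∣ X - (-b - ds * J) := W.dvX h1 (by simp)
  have h4 : Cl (0 : ℤ) (-2) (X - (-b - ds * J) + (X - (-b - ds * J)))
      (b + c - (c + b) + (b + c - (c + b))) (I - J + (I - J)) := by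
    have := W.add h1 h1
    simpa using this
  have h5 := small W hA h4 (by norm_num)
  have hpR : (5 : ℝ) ≤ p := by exact_mod_cast hp
  have hD := W.hD
  have h6 : 4 * |I - J| < 1 := by
    have e : |I - J + (I - J)| = 2 * |I - J| := by
      rw [← two_mul, abs_mul]; norm_num
    rw [e] at h5
    by_contra h7
    push Not at h7
    nlinarith [abs_nonneg (I - J)]
  obtain ⟨m, hm⟩ := h3
  have hX : X = p * m - b - ds * J := by linarith
  have hx0 := h.x0
  have hxp := h.xp
  have hds : (ds : ℝ) * (I - J) < 1 ∧ -1 < (ds : ℝ) * (I - J) := by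
    have h7 := abs_lt.1 (show |I - J| < 1 by linarith [abs_nonneg (I - (J : ℝ))])
    rcases W.hds with ⟨h8, -⟩ | ⟨h8, -⟩
    · rw [h8]; push_cast; constructor <;> linarith
    · rw [h8]; push_cast; constructor <;> linarith
  have hb := W.hb
  have h2b := W.h2b
  have hbR : (2 : ℝ) ≤ b := by exact_mod_cast hb
  have h2bR : 2 * (b : ℝ) < p := by exact_mod_cast h2b
  rw [hX] at hx0 hxp
  push_cast at hx0 hxp
  have hm1 : m = 1 := by
    have h7 : 0 < m := by
      by_contra h8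
      push Not at h8
      have : (m : ℝ) ≤ 0 := by exact_mod_cast h8
      nlinarith
    have h8 : m < 2 := by
      by_contra h9
      push Not at h9
      have : (2 : ℝ) ≤ m := by exact_mod_cast h9
      nlinarith
    omega
  subst hm1
  have hX2 : X = p - b - ds * J := by linarith
  rw [hX2] at h
  exact ⟨I, h, h6⟩

end Helper48.KY
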