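import Pool.Agent.Helper25.KW.Def

set_option autoImplicit false

/-!
# There is always a cluster of small index in the strip `|x| < b`
-/

namespace Helper48.KY

open Helper25.KW

section

variable {p a b c J ds l q : ℤ} {D dl : ℝ} {Cl : ℤ → ℤ → ℤ → ℤ → ℝ → Prop}

theorem clz (W : Base p a b c J ds l q D dl Cl) : Cl 0 0 0 0 0 := by
  have h := W.add W.cp (W.neg W.cp)
  simpa using h

/-- multiples -/
theorem clm (W : Base p a b c J ds l q D dl Cl) {N τ X R : ℤ} {I : ℝ} (h : Cl N τ X R I) (k : ℤ) :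
    Cl (k * N) (k * τ) (k * X) (k * R) (k * I) := by
  have hn : ∀ n : ℕ, Cl (n * N) (n * τ) (n * X) (n * R) (n * I) := by
    intro n
    induction n with
    | zero =>
      have := clz W
      simpa using this
    | succ n ih =>
      have := W.add ih h
      have e1 : ((n + 1 : ℕ) : ℤ) * N = n * N + N := by push_cast; ring
      have e2 : ((n + 1 : ℕ) : ℤ) * τ = n * τ + τ := by push_cast; ring
      have e3 : ((n + 1 : ℕ) : ℤ) * X = n * X + X := by push_cast; ring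
      have e4 : ((n + 1 : ℕ) : ℤ) * R = n * R + R := by push_cast; ring
      have e5 : ((n + 1 : ℕ) : ℝ) * I = n * I + I := by push_cast; ring
      rw [e1, e2, e3, e4, e5]
      exact this
  obtain ⟨n, rfl | rfl⟩ := Int.eq_nat_or_neg k
  · simpa using hn n
  · have := W.neg (hn n)
    have e5 : (((-(n : ℤ) : ℤ)) : ℝ) * I = -((n : ℝ) * I) := by push_cast; ring
    rw [e5, neg_mul, neg_mul, neg_mul, neg_mul]
    exact this

/-- pigeonhole: a cluster with `0 < N ≤ p / b` in the strip `|x| < b` -/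
theorem strip (W : Base p a b c J ds l q D dl Cl) {X1 R1 : ℤ} {I1 : ℝ} (h1 : Cl 1 0 X1 R1 I1) :
    ∃ (N X R : ℤ) (I : ℝ), Cl N 0 X R I ∧ 0 < N ∧ N * b ≤ p ∧ -(b : ℝ) < X + ds * I ∧
      X + ds * I < b := by
  have hb := W.hb
  have h2b := W.h2b
  have hp0 : 0 < p := by linarith
  obtain ⟨K, hK⟩ : ∃ K : ℤ, K = p / b + 1 := ⟨_, rfl⟩
  have hKb : p < K * b := by
    rw [hK]
    have := Int.lt_ediv_add_one_mul_self p (show 0 < b by linarith)
    exact this
  have hK0 : 0 ≤ K := by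
    rw [hK]
    have := Int.ediv_nonneg hp0.le (show 0 ≤ b by linarith)
    linarith
  have hKp : (K - 1) * b ≤ p := by
    rw [hK, add_sub_cancel_right]
    exact Int.ediv_mul_le p (by linarith)
  obtain ⟨x, hx⟩ : ∃ x : ℝ, x = X1 + ds * I1 := ⟨_, rfl⟩
  -- the map
  let f : ℤ × ℤ → ℤ := fun v => (⌈(v.1 : ℝ) * x⌉ + v.2) % p
  have hcard : (Finset.Ico (0 : ℤ) p).card < (Finset.Ico (0 : ℤ) K ×ˢ Finset.Ico (0 : ℤ) b).card := by
    rw [Finset.card_product, Int.card_Ico, Int.card_Ico, Int.card_Ico]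
    have h3 : ((p - 0).toNat : ℤ) < (((K - 0).toNat * (b - 0).toNat : ℕ) : ℤ) := by
      rw [sub_zero, sub_zero, sub_zero, Nat.cast_mul, Int.toNat_of_nonneg hp0.le,
        Int.toNat_of_nonneg hK0, Int.toNat_of_nonneg (by linarith : (0 : ℤ) ≤ b)]
      exact hKb
    exact_mod_cast h3
  obtain ⟨v, hv, v', hv', hne, hff⟩ := Finset.exists_ne_map_eq_of_card_lt_of_maps_to hcard (f := f)
    (by
      intro v _
      simp only [Finset.coe_Ico, Set.mem_Ico]
      exact ⟨Int.emod_nonneg _ hp0.ne', Int.emod_lt_of_pos _ hp0⟩)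
  -- the conclusion for an ordered pair
  have key : ∀ j t j' t' : ℤ, 0 ≤ j' → j < K → 0 ≤ t → t < b → 0 ≤ t' → t' < b → j' < j →
      p ∣ (⌈(j : ℝ) * x⌉ + t) - (⌈(j' : ℝ) * x⌉ + t') →
      ∃ (N X R : ℤ) (I : ℝ), Cl N 0 X R I ∧ 0 < N ∧ N * b ≤ p ∧ -(b : ℝ) < X + ds * I ∧
      X + ds * I < b := by
    intro j t j' t' hj' hj ht0 htb ht0' htb' hlt hdvd
    obtain ⟨w, hw⟩ := hdvd
    have c1 := W.add (clm W h1 (j - j')) (clm W W.cX (-w))
    refine ⟨_, _, _, _, by simpa using c1, by linarith, ?_, ?_, ?_⟩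
    · refine le_trans ?_ hKp
      exact mul_le_mul_of_nonneg_right (by linarith) (by linarith)
    all_goals
      have g1 := Int.ceil_lt_add_one ((j : ℝ) * x)
      have g2 := Int.le_ceil ((j : ℝ) * x)
      have g3 := Int.ceil_lt_add_one ((j' : ℝ) * x)
      have g4 := Int.le_ceil ((j' : ℝ) * x)
      have g5 : ((⌈(j : ℝ) * x⌉ : ℤ) : ℝ) + t - (((⌈(j' : ℝ) * x⌉ : ℤ) : ℝ) + t') = p * w := by
        exact_mod_cast hw
      have g6 : (t : ℝ) ≤ b - 1 := by
        have : t ≤ b - 1 := by linarith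
        exact_mod_cast this
      have g7 : (t' : ℝ) ≤ b - 1 := by
        have : t' ≤ b - 1 := by linarith
        exact_mod_cast this
      have g8 : (0 : ℝ) ≤ t := by exact_mod_cast ht0
      have g9 : (0 : ℝ) ≤ t' := by exact_mod_cast ht0'
      have g10 : (j : ℝ) * x - j' * x = (j - j') * (X1 + ds * I1) := by rw [hx]; ring
      push_cast
      nlinarith [g1, g2, g3, g4, g5, g6, g7, g8, g9, g10]
  obtain ⟨j, t⟩ := v
  obtain ⟨j', t'⟩ := v'
  rw [Finset.mem_product, Finset.mem_Ico, Finset.mem_Ico] at hv hv'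
  have hdvd : p ∣ (⌈(j : ℝ) * x⌉ + t) - (⌈(j' : ℝ) * x⌉ + t') := by
    have h3 : (⌈(j : ℝ) * x⌉ + t) % p = (⌈(j' : ℝ) * x⌉ + t') % p := hff
    exact Int.ModEq.dvd (Int.ModEq.symm h3)
  rcases lt_trichotomy j' j with h | h | h
  · exact key j t j' t' hv'.1.1 hv.1.2 hv.2.1 hv.2.2 hv'.2.1 hv'.2.2 h hdvd
  · exfalso
    apply hne
    subst h
    have h4 : p ∣ t - t' := by
      have : (⌈(j' : ℝ) * x⌉ + t) - (⌈(j' : ℝ) * x⌉ + t') = t - t' := by ring
      rwa [this] at hdvd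
    have h5 : t - t' = 0 := by
      apply Int.eq_zero_of_abs_lt_dvd h4
      rw [abs_lt]
      have h6 := hv.2
      have h7 := hv'.2
      simp only at h6 h7
      constructor <;> linarith [h6.1, h6.2, h7.1, h7.2]
    have : t = t' := by linarith
    rw [this]
  · exact key j' t' j t hv.1.1 hv'.1.2 hv'.2.1 hv'.2.2 hv.2.1 hv.2.2 h ((dvd_sub_comm).1 hdvd)

end

end Helper48.KY
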