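import Pool.Agent.Helper48.KY.One
import Pool.Agent.Helper48.KY.Strip

set_option autoImplicit false

/-!
# There is always a cluster with `N ≤ p / b` in the strip `|x| < b`
-/

namespace Helper48.KY

open Helper25.KW

variable {p a b c J ds l q : ℤ} {D dl : ℝ} {Cl : ℤ → ℤ → ℤ → ℤ → ℝ → Prop}

/-- pigeonhole -/
theorem stripA (W : Base p a b c J ds l q D dl Cl) (hA : Aux p a b ds D Cl) :
    ∃ (N X R : ℤ) (I : ℝ), Cl N 0 X R I ∧ 0 < N ∧ N * b ≤ p ∧ -(b : ℝ) < X + ds * I ∧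
      X + ds * I < b := by
  obtain ⟨X1, R1, I1, h, -⟩ := oneE' W hA
  exact strip W h.cl

end Helper48.KY
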