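import Pool.Agent.Helper48.KY.Two

set_option autoImplicit false

/-!
# Order facts for the twin of `l` (index `l`, `τ = 0`)
-/

namespace Helper48.KY

open Helper25.KW

variable {p a b c J ds l q : ℤ} {D dl : ℝ} {Cl : ℤ → ℤ → ℤ → ℤ → ℝ → Prop}

/-- a cluster with `τ = 0` is on the same side of `l` (`τ = 1`) and of its twin -/
theorem twm (W : Base p a b c J ds l q D dl Cl) {Xw Rw N X R : ℤ} {Iw I : ℝ}
    (hw : Cl l 0 Xw Rw Iw) (h : Cl N 0 X R I) (hN : N ≠ l) :
    (I < J → I < Iw) ∧ (J < I → Iw < I) := by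
  constructor
  · intro h1
    have h2 := dif W W.cl h
    have h3 := W.pos h2 (by norm_num) (by linarith)
    have h4 := (W.pos0 (dif W hw h)).2 (by omega)
    linarith
  · intro h1
    have h2 := dif W h W.cl
    have h3 := W.pos h2 (by norm_num) (by linarith)
    have h4 := (W.pos0 (dif W h hw)).2 (by omega)
    linarith

/-- the same for `D - I` -/
theorem twn (W : Base p a b c J ds l q D dl Cl) {Xw Rw N X R : ℤ} {Iw I : ℝ}
    (hw : Cl l 0 Xw Rw Iw) (h : Cl N 0 X R I) (hN : N + l ≠ p) :
    (I + J < D → I + Iw < D) ∧ (D < I + J → D < I + Iw) := by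
  have h1 := twm W hw (dif W W.cp h) (by omega)
  constructor
  · intro h2
    have := h1.2 (by linarith)
    linarith
  · intro h2
    have := h1.1 (by linarith)
    linarith

end Helper48.KY
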